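import Pool.Agent.H3.ASM.Cas
import Pool.Agent.H92.ALT.Jt2
import Pool.Agent.H92.ALT.Jn7

/-!
# The cells `one, one, thin` and `one, one, sta` for `n = 4`, from their parts

`FulB`: the rates of the last coordinate are full. `c11_of`: the cell from the class theorem of the
last coordinate at the windows of full rate (`CelTP`), and at the windows with a family of small rate
(`CbN`). `c11t_of`, `c11s_of`; `c11t_ofV`, `c11s_ofV`: from blind families (`VbTP`).
-/

set_option autoImplicit false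

namespace Pool.ASM

open MeasureTheory Set Filter Topology
open Pool.GEN Pool.PKG Pool.SW Pool.ALT
open Pool.LA91 (FaQ sumQ HerQ her_sum her_fa aePG_fa aePG_sum)
open Pool.ONE (Ext0 Ext)
open Pool.MIC6

/-- **The rates of the last coordinate are full.** -/
def FulB (Sl : ℕ → ℝ) : PropZ 4 (PosR × ℕ) := fun b => FulR (AdmN 2) (Sl 3 * Real.log 2) b.1 b.2

theorem kgL_11 (k : Kd) : kgL [Kd.one, Kd.one, k] = kg4 .one .one (ofKd k) .stp := by
  funext l
  unfold kgL kg4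
  rcases l with _ | _ | _ | _ | l
  · rfl
  · rfl
  · rfl
  · rfl
  · simp

/-- **A class theorem of the last coordinate** for two ranges of the slopes. -/
theorem CelTP.or {k : Kg} {Φ Φ' : (ℕ → ℝ) → Prop} {Λ : Type} {Z : (ℕ → ℝ) → PropZ 4 Λ}
    (H : CelTP k Φ Z) (H' : CelTP k Φ' Z) {Ψ : (ℕ → ℝ) → Prop} (h : ∀ Sl, Ψ Sl → Φ Sl ∨ Φ' Sl) :
    CelTP k Ψ Z := by
  obtain ⟨ι, hι, Q, h1, h2, H⟩ := H
  obtain ⟨ι', hι', Q', h1', h2', H'⟩ := H'
  refine ⟨ι ⊕ ι', inferInstance, sumQ Q Q', aePG_sum h1 h2 h1', her_sum h2 h2', ?_⟩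
  intro hh h0 h1 Sl hS hΨ
  rcases h Sl hΨ with hΦ | hΦ
  · exact (H hh h0 h1 Sl hS hΦ).inl
  · exact (H' hh h0 h1 Sl hS hΦ).inr

/-- **The last coordinate at the windows with a family of small rate**, for two ranges. -/
theorem CbN.or {k : Kg} {Φ Φ' : (ℕ → ℝ) → Prop} (H : CbN k Φ) (H' : CbN k Φ')
    {Ψ : (ℕ → ℝ) → Prop} (h : ∀ Sl, Ψ Sl → Φ Sl ∨ Φ' Sl) : CbN k Ψ := by
  obtain ⟨ι, hι, Q, h1, h2, H⟩ := H
  obtain ⟨ι', hι', Q', h1', h2', H'⟩ := H'
  refine ⟨ι ⊕ ι', inferInstance, sumQ Q Q', aePG_sum h1 h2 h1', her_sum h2 h2', ?_⟩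
  intro hh h0 h1 Sl hS hΨ β' hβ D
  rcases h Sl hΨ with hΦ | hΦ
  · exact (H hh h0 h1 Sl hS hΦ β' hβ D).inl
  · exact (H' hh h0 h1 Sl hS hΦ β' hβ D).inr

/-- **The cell** `one, one, k` **for** `n = 4`: at the windows of full rate, and at the windows with a
family of small rate. -/
theorem c11_of {k : Kd} (hk : k = .thin ∨ k = .sta)
    (hf : CelTP (ofKd k) (fun _ => True) FulB) (hn : CbN (ofKd k) (fun _ => True)) :
    LCellM 4 [Kd.one, Kd.one, k] := by
  obtain ⟨ι, hι, Q, a1, b1, H⟩ := hf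
  obtain ⟨ι', hι', Q', a2, b2, H'⟩ := hn
  refine LCellV.m (LCellA.v (lCellA_of_c (Q := sumQ (sumQ Q Q') (AltQ : PropG 4 AltI))
    (aePG_sum (aePG_sum a1 b1 a2) (her_sum b1 b2) (aePG_alt 4)) (by simp) ?_))
  intro h hh hh1 Sl hs s3 _
  have s0 : Sl 0 = 1 := (hs 0 (by simp)).1 rfl
  have s1 : Sl 1 = 1 := (hs 1 (by simp)).1 rfl
  have s3' : 2 < Sl 3 := s3
  have hS : SlB (ofKd k) Sl := by
    rcases hk with rfl | rfl
    · exact ⟨s0, s1, fun _ => (hs 2 (by simp)).2.1 rfl, (nomatch ·), (nomatch ·), s3'⟩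
    · exact ⟨s0, s1, (nomatch ·), fun _ => (hs 2 (by simp)).2.2 rfl, (nomatch ·), s3'⟩
  have e3 : [Kd.one, Kd.one, k].length = 3 := rfl
  rw [e3, kgL_11]
  refine CasW.rt (AdmN 2) (Sl 3 * Real.log 2) (fun _ _ _ _ _ _ _ _ _ _ h => allQ_inr h) ?_
    fun β' hβ' D => ?_
  · exact CasW.ful rfl ((H h hh hh1 Sl hS trivial).inl.inl.mono id
      fun _ _ _ _ _ _ _ _ _ _ _ hZ => hZ.2)
  · exact CasW.low rfl ((H' h hh hh1 Sl hS trivial β' hβ' D).inr.inl.mono id
      fun _ _ _ _ _ _ _ _ _ _ _ hZ => hZ.2)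

/-- **The cell** `one, one, thin`, from the class theorems of the last coordinate at the windows of
full rate, and, the slopes equal, at the windows with a family of small rate. -/
theorem c11t_of (h1 : CelTP .thin (fun Sl => Sl 2 ≠ Sl 3) FulB)
    (h2 : CelTP .thin (fun Sl => Sl 2 = Sl 3) FulB) (h3 : CbN .thin (fun Sl => Sl 2 = Sl 3)) :
    LCellM 4 [Kd.one, Kd.one, Kd.thin] :=
  c11_of (Or.inl rfl) (h2.or h1 fun _ _ => eq_or_ne _ _) (h3.or cbN_thin_ne fun _ _ => eq_or_ne _ _)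

/-- **The cell** `one, one, sta`, from the class theorem of the last coordinate at the windows of
full rate. -/
theorem c11s_of (h1 : CelTP .sta (fun _ => True) FulB) : LCellM 4 [Kd.one, Kd.one, Kd.sta] :=
  c11_of (Or.inr rfl) h1 cbN_sta

/-- **The cell** `one, one, thin` from blind families, the slopes different; and the two parts with
the slopes equal. -/
theorem c11t_ofV (h1 : VbTP .thin (fun Sl => Sl 2 ≠ Sl 3) FulB)
    (h2 : CelTP .thin (fun Sl => Sl 2 = Sl 3) FulB) (h3 : CbN .thin (fun Sl => Sl 2 = Sl 3)) :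
    LCellM 4 [Kd.one, Kd.one, Kd.thin] :=
  c11t_of (celT_thin (fun _ h => h) h1) h2 h3

/-- **The cell** `one, one, sta` from blind families. -/
theorem c11s_ofV (h1 : VbTP .sta (fun _ => True) FulB) : LCellM 4 [Kd.one, Kd.one, Kd.sta] :=
  c11s_of (celT_u (Or.inr rfl) h1)

end Pool.ASM
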