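import Pool.Agent.H80.DIC.Treer

/-!
# The cells from the cases at the window

`cell_of_c`: the cell of one class. `lCellA_of_c`: the cell for all classes; the place after the list
of kinds is static, from the cases at the window.
-/

set_option autoImplicit false

namespace Pool.PKG

open MeasureTheory Set Filter Topology
open Pool.Agent.H49.Ent Pool.Agent.H32.Dense Pool.STK Pool.KA Pool.KSAT Pool.K2S Pool.PB
open Pool.GEN Pool.S6C Pool.STAT Pool.CHT Pool.GRW Pool.ONE Pool.STA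
open Pool.TOP (TopS)
open Pool.STR (ThinAt SteepAt StaAt)

variable {n : ℕ} {hn : 2 ≤ n} {S : PCl n} {P : ℝ → ℝ → ℝ} {r : ℝ → ℝ}
  {P' : ℕ → List (Fin n) × Fin n → ℝ → ℝ → ℝ} {Λ : Finset (Fin n) → Fin n → ℝ → ℝ → ℝ}
  {PB : ℕ → List (Fin n) × Fin n → ℝ → ℝ → ℝ}

/-- **A cell from the cases at the window**, for one class. -/
theorem cell_of_c {ι : Type} [Countable ι] {Q : PropG n ι} (hQ : AePG n Q)
    (H : PkT hn S P r P' Λ PB) (hTop : TopS n)
    (hF : FZX (n - 1)) (h : ℝ) {κ : List Kd} (hκn : κ.length ≤ n - 1)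
    (hcls : ∀ Sl : ℕ → ℝ, (∀ (l : ℕ) (hl : l < κ.length),
      (κ[l] = .one → Sl l = 1) ∧ (κ[l] = .thin → 1 < Sl l) ∧ (κ[l] = .sta → 2 ≤ Sl l)) →
      2 < Sl κ.length → (∀ l < n, 1 ≤ Sl l) →
      CasW n {κ.length} h Sl (kgL κ) Q (TruW n)) :
    Cell H hTop hF h κ := by
  intro o
  have hn0 : κ.length < n := by omega
  filter_upwards [stas_of_c (κ := kgL κ) hQ H hTop hF h (fun _ => True) (I := {κ.length})
    (fun i hi => by
      rw [Set.mem_singleton_iff] at hi
      rw [hi]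
      exact hκn) (fun Sl _ k1 k2 => hcls Sl (fun l hl => by
        have h3 := k1 l (by omega)
        rw [kgL_lt hl] at h3
        refine ⟨fun h4 => h3.1 ?_, fun h4 => h3.2.1 ?_, fun h4 => h3.2.2.1 ?_⟩
        · rw [h4]
          rfl
        · rw [h4]
          rfl
        · rw [h4]
          rfl) ((k1 κ.length hn0).2.2.2 (kgL_len κ)) k2) o] with g h1 R _ hk hs hst
  obtain ⟨i, hi, h2⟩ := h1 R trivial fun l hl => by
    rcases lt_trichotomy l κ.length with h5 | h5 | h5
    · rw [kgL_lt h5]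
      exact (hk l h5).kg
    · rw [h5, kgL_len]
      exact ⟨hs, hst⟩
    · unfold kgL
      rw [if_neg (by omega), if_neg (by omega)]
      trivial
  rw [Set.mem_singleton_iff] at hi
  rwa [hi] at h2

end Pool.PKG

namespace Pool.ASM

open MeasureTheory Set Filter Topology
open Pool.GEN Pool.PKG Pool.SW
open Pool.ONE (Ext0 Ext)
open Pool.MIC6

/-- **A cell for all classes from the cases at the window.** -/
theorem lCellA_of_c {n : ℕ} {ι : Type} [Countable ι] {Q : PropG n ι} (hQ : AePG n Q)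
    {κ : List Kd} (hκn : κ.length ≤ n - 1)
    (hcls : ∀ h : ℝ, 0 < h → h ≤ 1 → ∀ Sl : ℕ → ℝ, (∀ (l : ℕ) (hl : l < κ.length),
      (κ[l] = .one → Sl l = 1) ∧ (κ[l] = .thin → 1 < Sl l) ∧ (κ[l] = .sta → 2 ≤ Sl l)) →
      2 < Sl κ.length → (∀ l < n, 1 ≤ Sl l) →
      CasW n {κ.length} h Sl (kgL κ) Q (TruW n)) :
    LCellA n κ := fun _ => by
  refine (Tol.le (1 / 2) (by norm_num)).mono fun η hη => ?_
  intro hn _ hF hTop D hD hD1 _ S P r P' Λ PB H
  have h1 := hη D hD
  exact cell_of_c hQ H hTop hF _ hκn (hcls _ (mul_pos (by linarith) hD) (by nlinarith))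

end Pool.ASM
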